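import Mathlib
import Pool.Agent.Lib.helper22.Stat
import Pool.Agent.Lib.helper22.Ponag

set_option autoImplicit false

namespace Pool.Agent.Results.MP_4977a6_gt.Counterexample

open Set
open H22P (hist Move rest LegalA LegalB Covers BobWins discrete_of)

/-- an open cover -/
def OCover {X : Type} [TopologicalSpace X] (𝒰 : Set (Set X)) : Prop :=
  (∀ U ∈ 𝒰, IsOpen U) ∧ ⋃₀ 𝒰 = univ

/-- the Menger property -/
def Menger (X : Type) [TopologicalSpace X] : Prop :=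
  ∀ 𝒰 : ℕ → Set (Set X), (∀ n, OCover (𝒰 n)) →
    ∃ 𝓕 : ℕ → Set (Set X), (∀ n, (𝓕 n).Finite ∧ 𝓕 n ⊆ 𝒰 n) ∧ ⋃₀ (⋃ n, 𝓕 n) = univ

/-- Bob has a winning strategy in the Menger game; `τ l 𝒰` answers `𝒰` after the earlier
moves `l` of Alice -/
def BobWinsMenger (X : Type) [TopologicalSpace X] : Prop :=
  ∃ τ : List (Set (Set X)) → Set (Set X) → Set (Set X),
    (∀ l 𝒰, (∀ 𝒱 ∈ l, OCover 𝒱) → OCover 𝒰 → (τ l 𝒰).Finite ∧ τ l 𝒰 ⊆ 𝒰) ∧
    ∀ 𝒰 : ℕ → Set (Set X), (∀ n, OCover (𝒰 n)) → ⋃₀ (⋃ n, τ (hist 𝒰 n) (𝒰 n)) = univ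

open Pool.Agent.Lib.helper22.Ray Pool.Agent.Lib.helper22.Stat

lemma list_bdd {α : Type} {δ : W} (hδ : w0 < δ) (P : W → α → Prop)
    (hP : ∀ a b x, a ≤ b → P a x → P b x) (l : List α) (h : ∀ x ∈ l, ∃ a < δ, P a x) :
    ∃ a < δ, ∀ x ∈ l, P a x := by
  induction l with
  | nil => exact ⟨w0, hδ, by simp⟩
  | cons x l ih =>
    obtain ⟨a, h1, h2⟩ := ih fun y hy => h y (List.mem_cons_of_mem _ hy)
    obtain ⟨b, h3, h4⟩ := h x List.mem_cons_self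
    refine ⟨max a b, max_lt h1 h3, fun y hy => ?_⟩
    rcases List.mem_cons.1 hy with rfl | hy
    · exact hP _ _ _ (le_max_right _ _) h4
    · exact hP _ _ _ (le_max_left _ _) (h2 y hy)

def cov (g : X → W) : Set (Set X) := {U | ∃ F : Set X, F.Finite ∧ U = ⋃ x ∈ F, B x (g x)}

lemma cov_k (g : X → W) : OCover (cov g) := by
  refine ⟨?_, eq_univ_of_forall fun x =>
    ⟨_, ⟨{x}, finite_singleton x, rfl⟩, mem_biUnion (mem_singleton x) (B_self _ _)⟩⟩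
  rintro _ ⟨F, -, rfl⟩
  exact isOpen_biUnion fun x _ => B_open _ _

lemma cov_fin {g : X → W} {𝓕 : Set (Set X)} (h1 : 𝓕.Finite) (h2 : 𝓕 ⊆ cov g) :
    ∃ E : Set X, E.Finite ∧ ⋃₀ 𝓕 = ⋃ x ∈ E, B x (g x) := by
  have : ∀ U ∈ 𝓕, ∃ F : Set X, F.Finite ∧ U = ⋃ x ∈ F, B x (g x) := fun U hU => h2 hU
  choose! F hF hF' using this
  refine ⟨⋃ U ∈ 𝓕, F U, h1.biUnion hF, Subset.antisymm ?_ ?_⟩
  · rintro y ⟨U, hU, hy⟩
    rw [hF' U hU] at hy
    obtain ⟨x, hx, hy⟩ := mem_iUnion₂.1 hy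
    exact mem_biUnion (mem_biUnion hU hx) hy
  · intro y hy
    obtain ⟨x, hx, hy⟩ := mem_iUnion₂.1 hy
    obtain ⟨U, hU, hx⟩ := mem_iUnion₂.1 hx
    exact ⟨U, hU, by rw [hF' U hU]; exact mem_biUnion hx hy⟩

lemma notP2 : ¬ BobWinsMenger X := by
  rintro ⟨τ, h1, h2⟩
  have step : ∀ p : List (Set (Set X)), ∃ (K : Set X) (G : W → ℕ → X → W),
      (∀ 𝒱 ∈ p, OCover 𝒱) → K.Finite ∧ ∀ α x, (∀ k ∈ K, x ∉ B k α) →
        ∃ n, x ∉ ⋃₀ τ p (cov (G α n)) := by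
    intro p
    by_cases hp : ∀ 𝒱 ∈ p, OCover 𝒱
    · have hV : ∀ g, ∃ E : Set X, E.Finite ∧ ⋃₀ τ p (cov g) = ⋃ x ∈ E, B x (g x) := fun g =>
        cov_fin (h1 p _ hp (cov_k g)).1 (h1 p _ hp (cov_k g)).2
      have : ∀ α, ∃ G : ℕ → X → W, ∀ x, (∀ k ∈ ⋂ g, ⋃₀ τ p (cov g), x ∉ B k α) →
          ∃ n, x ∉ ⋃₀ τ p (cov (G n)) := by
        intro α
        have : ∀ z : X, ∃ (g : X → W) (β : W), ∀ x ∈ B z β,
            (∀ k ∈ ⋂ g, ⋃₀ τ p (cov g), x ∉ B k α) → x ∉ ⋃₀ τ p (cov g) := by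
          intro z
          by_cases hz : z ∈ ⋂ g, ⋃₀ τ p (cov g)
          · exact ⟨fun _ => α, α, fun x hx h => absurd hx (h z hz)⟩
          · obtain ⟨g, hg⟩ : ∃ g, z ∉ ⋃₀ τ p (cov g) := by simpa using hz
            obtain ⟨E, hE, hE'⟩ := hV g
            have hcl : IsClosed (⋃₀ τ p (cov g)) := by
              rw [hE']; exact hE.isClosed_biUnion fun x _ => B_closed _ _
            obtain ⟨β, hβ⟩ := hcl.isOpen_compl z hg
            exact ⟨g, β, fun x hx _ => hβ hx⟩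
        choose g β hg using this
        obtain ⟨Z, hZ, hZ'⟩ := lindelof β
        have : Nonempty X := ⟨⟨∅, Or.inl finite_empty⟩⟩
        obtain ⟨e, he⟩ := countable_iff_exists_subset_range.1 hZ
        refine ⟨fun n => g (e n), fun x hx => ?_⟩
        obtain ⟨z, hz, hxz⟩ := hZ' x
        obtain ⟨n, rfl⟩ := he hz
        exact ⟨n, hg _ x hxz hx⟩
      choose G hG using this
      refine ⟨⋂ g, ⋃₀ τ p (cov g), G, fun _ => ⟨finite_of_cover fun g => ?_, hG⟩⟩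
      obtain ⟨E, hE, hE'⟩ := hV g
      exact ⟨E, hE, hE' ▸ iInter_subset _ g⟩
    · exact ⟨∅, fun _ _ _ => w0, fun h => absurd h hp⟩
  choose K G hKG using step
  let pos : List (W × ℕ) → List (Set (Set X)) :=
    fun s => s.foldr (fun q p => cov (G p q.1 q.2) :: p) []
  have hpos : ∀ s, ∀ 𝒱 ∈ pos s, OCover 𝒱 := by
    intro s
    induction s with
    | nil => simp [pos]
    | cons q s ih =>
      intro 𝒱 h
      rcases List.mem_cons.1 h with rfl | h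
      · exact cov_k _
      · exact ih _ h
  choose bd hbd using X_bdd
  have : ∀ a : W, ∃ b, ∀ s : List (W × ℕ), (∀ q ∈ s, q.1 ≤ a) → ∀ k ∈ K (pos s), bd k < b := by
    intro a
    obtain ⟨b, hb⟩ := W_bdd (((list_countable ((W_Iic a).prod (countable_univ (α := ℕ)))).biUnion
      fun s _ => (hKG _ (hpos s)).1.countable).image bd)
    exact ⟨b, fun s hs k hk => hb _ ⟨k, mem_biUnion
      (show s ∈ {l : List (W × ℕ) | ∀ x ∈ l, x ∈ Iic a ×ˢ univ} from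
        fun q hq => ⟨hs q hq, trivial⟩) hk, rfl⟩⟩
  choose f hf using this
  obtain ⟨δ, hδ, hcl⟩ := (hS f).1
  let t : X := ⟨c δ, Or.inr ⟨δ, hδ, hcl.1, rfl⟩⟩
  have : ∀ s : List (W × ℕ), ∃ q : W × ℕ, (∀ q ∈ s, q.1 < δ) →
      q.1 < δ ∧ t ∉ ⋃₀ τ (pos s) (cov (G (pos s) q.1 q.2)) := by
    intro s
    by_cases hs : ∀ q ∈ s, q.1 < δ
    · obtain ⟨a, ha, ha'⟩ := list_bdd hcl.1.1 (fun a (q : W × ℕ) => q.1 ≤ a)
        (fun a b x hab h => h.trans hab) s fun q hq => ⟨q.1, hs q hq, le_rfl⟩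
      obtain ⟨y, hy, hy'⟩ := (hc δ).2.2 _ (hcl.2 a ha)
      obtain ⟨α, hα, hα'⟩ := hcl.1.2 y ((hc δ).1 hy)
      obtain ⟨n, hn⟩ := (hKG _ (hpos s)).2 α t fun k hk h =>
        absurd (hbd k ((h y hα').1 hy)) (not_le.2 ((hf a s ha' k hk).trans_le hy'))
      exact ⟨(α, n), fun _ => ⟨hα, hn⟩⟩
    · exact ⟨(w0, 0), fun h => absurd h hs⟩
  choose nx hnx using this
  let s : ℕ → List (W × ℕ) := fun m => Nat.rec [] (fun _ l => nx l :: l) m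
  have hs : ∀ m, ∀ q ∈ s m, q.1 < δ := by
    intro m
    induction m with
    | zero => simp [s]
    | succ m ih =>
      intro q hq
      rcases List.mem_cons.1 hq with rfl | hq
      · exact (hnx _ ih).1
      · exact ih q hq
  let 𝒰 : ℕ → Set (Set X) := fun m => cov (G (pos (s m)) (nx (s m)).1 (nx (s m)).2)
  have e : ∀ m, hist 𝒰 m = pos (s m) := by
    intro m
    induction m with
    | zero => rfl
    | succ m ih => simp only [hist, ih]; rfl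
  obtain ⟨U, hU, htU⟩ := eq_univ_iff_forall.1 (h2 𝒰 fun m => cov_k _) t
  obtain ⟨m, hm⟩ := mem_iUnion.1 hU
  rw [e] at hm
  exact (hnx _ (hs m)).2 ⟨U, hm, htU⟩

lemma menger : Menger X := by
  intro 𝒰 h
  have : ∀ n x, ∃ U ∈ 𝒰 n, ∃ α, B x α ⊆ U := by
    intro n x
    obtain ⟨U, hU, hx⟩ := eq_univ_iff_forall.1 (h n).2 x
    exact ⟨U, hU, (h n).1 U hU x hx⟩
  choose U hU α hα using this
  choose g hg using fun x => W_bdd (countable_range fun n => α n x)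
  obtain ⟨Z, hZ, hZ'⟩ := lindelof g
  have : Nonempty X := ⟨⟨∅, Or.inl finite_empty⟩⟩
  obtain ⟨e, he⟩ := countable_iff_exists_subset_range.1 hZ
  refine ⟨fun n => {U n (e n)}, fun n => ⟨finite_singleton _, singleton_subset_iff.2 (hU _ _)⟩,
    eq_univ_of_forall fun x => ?_⟩
  obtain ⟨z, hz, hx⟩ := hZ' x
  obtain ⟨n, rfl⟩ := he hz
  exact ⟨_, mem_iUnion.2 ⟨n, rfl⟩, hα n _ (B_mono _ (hg _ _ ⟨n, rfl⟩).le hx)⟩

lemma closed_ctbl {Z : Set X} (hZ : Z.Countable) : IsClosed Z := by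
  refine ⟨fun x hx => ?_⟩
  obtain ⟨α, hα⟩ := avoid hZ x
  exact ⟨α, fun z hz hzZ => hx (hα z hzZ hz ▸ hzZ)⟩

lemma bob : BobWins X := by
  have : ∀ m : Move X, ∃ D : Set X, D.Countable ∧ D ⊆ m.1 ∧
      ((∀ x ∈ m.1, IsOpen (m.2 x)) → univ ⊆ ⋃ x ∈ m.1, m.2 x → univ ⊆ ⋃ x ∈ D, m.2 x) := by
    intro m
    by_cases h : (∀ x ∈ m.1, IsOpen (m.2 x)) ∧ univ ⊆ ⋃ x ∈ m.1, m.2 x
    · have : ∀ x, ∃ y ∈ m.1, ∃ α, B x α ⊆ m.2 y := by
        intro x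
        obtain ⟨y, hy, hx⟩ := mem_iUnion₂.1 (h.2 (mem_univ x))
        exact ⟨y, hy, h.1 y hy x hx⟩
      choose y hy α hα using this
      obtain ⟨Z, hZ, hZ'⟩ := lindelof α
      refine ⟨y '' Z, hZ.image y, by rintro _ ⟨x, -, rfl⟩; exact hy x, fun _ _ x _ => ?_⟩
      obtain ⟨z, hz, hx⟩ := hZ' x
      exact mem_biUnion (mem_image_of_mem y hz) (hα z hx)
    · exact ⟨∅, countable_empty, empty_subset _, fun h1 h2 => absurd ⟨h1, h2⟩ h⟩
  choose β h1 h2 h3 using this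
  refine ⟨fun L => β (L.headD (∅, fun _ => ∅)), fun a D hD => ?_⟩
  have hD' : ∀ n, D n = β (a n) := hD
  refine ⟨fun n _ => ?_, fun h => ?_⟩
  · rw [LegalB, hD']
    exact ⟨h2 _, closed_ctbl (h1 _), discrete_of fun E hE => closed_ctbl ((h1 _).mono hE)⟩
  · rw [Covers, eq_univ_iff_forall]
    intro z
    refine mem_iUnion.2 ⟨0, ?_⟩
    rw [hD']
    exact h3 _ (fun x hx => ((h 0).1 x hx).1) (fun w _ => (h 0).2.2 (by simp [rest])) (mem_univ z)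

theorem result : ∃ (X : Type) (_ : TopologicalSpace X), T3Space X ∧
    Menger X ∧ BobWins X ∧ ¬ BobWinsMenger X :=
  ⟨X, inferInstance, {}, menger, bob, notP2⟩

end Pool.Agent.Results.MP_4977a6_gt.Counterexample
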